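import Pool.Agent.H971R3.FV.Stmts2
import Pool.Agent.H241R3.FV.TInv

set_option autoImplicit false

open MeasureTheory Metric Set Filter Topology

namespace Pool.Agent.H169R3.FVAvg

open Pool.Agent.H241R3.FV (E Sph rot sig)
open Pool.Agent.H971R3.FV (TaskAvg)

instance inst1 (n : ℕ) : ContinuousStar (E n →L[ℝ] E n) :=
  ⟨(ContinuousLinearMap.adjoint (𝕜 := ℝ) (E := E n) (F := E n)).continuous⟩

instance inst2 (n : ℕ) : IsFiniteMeasure (sig n) := by
  unfold sig
  infer_instance

/-- the compact group of linear isometries -/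
abbrev Om (n : ℕ) : Type := unitary (E n →L[ℝ] E n)

lemma compact_om (n : ℕ) : CompactSpace (Om n) := by
  suffices hK : IsCompact (unitary (E n →L[ℝ] E n) : Set (E n →L[ℝ] E n)) from
    isCompact_iff_compactSpace.1 hK
  have : ProperSpace (E n →L[ℝ] E n) := FiniteDimensional.proper ℝ _
  refine Metric.isCompact_of_isClosed_isBounded isClosed_unitary ?_
  rw [Metric.isBounded_iff_subset_closedBall (0 : E n →L[ℝ] E n)]
  refine ⟨1, fun u hu => ?_⟩
  rw [mem_closedBall_zero_iff]
  refine ContinuousLinearMap.opNorm_le_bound _ zero_le_one fun x => ?_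
  rw [one_mul]
  exact (Unitary.norm_map ⟨u, hu⟩ x).le

noncomputable section

/-- the isometry of the inverse -/
def RR (n : ℕ) (w : Om n) : E n ≃ₗᵢ[ℝ] E n := Unitary.linearIsometryEquiv w⁻¹

lemma RR_apply (n : ℕ) (w : Om n) (v : E n) :
    RR n w v = ((w⁻¹ : Om n) : E n →L[ℝ] E n) v := rfl

lemma RR_cont (n : ℕ) : Continuous fun p : Sph n × Om n => RR n p.2 (p.1 : E n) := by
  have h1 : Continuous fun p : Sph n × Om n => (((p.2)⁻¹ : Om n) : E n →L[ℝ] E n) :=
    continuous_subtype_val.comp (continuous_inv.comp continuous_snd)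
  have h2 : Continuous fun p : Sph n × Om n => (p.1 : E n) :=
    continuous_subtype_val.comp continuous_fst
  exact h1.clm_apply h2

lemma RR_cont' (n : ℕ) (v : E n) : Continuous fun w : Om n => RR n w v := by
  have h1 : Continuous fun w : Om n => ((w⁻¹ : Om n) : E n →L[ℝ] E n) :=
    continuous_subtype_val.comp continuous_inv
  exact h1.clm_apply continuous_const

lemma RR_mul (n : ℕ) (g w : Om n) (v : E n) :
    RR n (g * w) v = RR n w (RR n g v) := by
  simp only [RR_apply, mul_inv_rev]
  rfl

/-- transitivity on the unit sphere -/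
lemma trans (n : ℕ) (v w : E n) (hv : ‖v‖ = 1) (hw : ‖w‖ = 1) : ∃ g : Om n, RR n g v = w := by
  set e : E n ≃ₗᵢ[ℝ] E n := (Submodule.span ℝ {v - w})ᗮ.reflection with he
  have h1 : e v = w := Submodule.reflection_sub (by rw [hv, hw])
  refine ⟨(Unitary.linearIsometryEquiv.symm e)⁻¹, ?_⟩
  rw [RR_apply, inv_inv]
  exact h1

theorem taskAvg : TaskAvg := by
  intro d hd
  set n := d + 1 with hn
  have hn0 : 0 < n := Nat.succ_pos d
  haveI : CompactSpace (Om n) := compact_om n
  letI : MeasurableSpace (Om n) := borel (Om n)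
  haveI : BorelSpace (Om n) := ⟨rfl⟩
  let P : Measure (Om n) := Measure.haarMeasure ⊤
  have hP : IsProbabilityMeasure P := by
    refine ⟨?_⟩
    have := Measure.haarMeasure_self (G := Om n) (K₀ := ⊤)
    exact this
  refine ⟨Om n, inferInstance, inferInstance, inferInstance, inferInstance, P, hP, RR n,
    RR_cont' n, ?_⟩
  intro F hF v hv
  -- the averaged function does not depend on the unit vector
  have hinv : ∀ u : E n, ‖u‖ = 1 → ∫ w, F (RR n w u) ∂P = ∫ w, F (RR n w v) ∂P := by
    intro u hu
    obtain ⟨g, hg⟩ := trans n v u hv hu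
    have h1 := integral_mul_left_eq_self (μ := P) (fun w => F (RR n w v)) g
    rw [← h1]
    refine integral_congr_ae (Filter.Eventually.of_forall fun w => ?_)
    simp only
    rw [RR_mul, hg]
  have hunit : ∀ (w : Om n) (u : Sph n), RR n w (u : E n) ∈ sphere (0 : E n) 1 := by
    intro w u
    have hu : ‖(u : E n)‖ = 1 := by simpa using u.2
    rw [mem_sphere_zero_iff_norm, LinearIsometryEquiv.norm_map, hu]
  have hG : Continuous fun x : Sph n => F (x : E n) := continuousOn_iff_continuous_domRestrict.1 hF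
  have hcont : Continuous (Function.uncurry fun (u : Sph n) (w : Om n) => F (RR n w (u : E n))) := by
    have h1 : Continuous fun p : Sph n × Om n =>
        (⟨RR n p.2 (p.1 : E n), hunit p.2 p.1⟩ : Sph n) := Continuous.subtype_mk (RR_cont n) _
    exact hG.comp h1
  have hswap := integral_integral_swap_of_hasCompactSupport (μ := sig n) (ν := P) hcont
    (HasCompactSupport.of_compactSpace _)
  have hleft : ∫ u : Sph n, (∫ w, F (RR n w (u : E n)) ∂P) ∂(sig n) =
      (∫ w, F (RR n w v) ∂P) * (sig n).real univ := by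
    have h1 : ∀ u : Sph n, (∫ w, F (RR n w (u : E n)) ∂P) = ∫ w, F (RR n w v) ∂P := by
      intro u
      exact hinv _ (by simpa using u.2)
    simp_rw [h1]
    rw [integral_const, smul_eq_mul, mul_comm]
  have hright : ∀ w : Om n, ∫ u : Sph n, F (RR n w (u : E n)) ∂(sig n) =
      ∫ u : Sph n, F (u : E n) ∂(sig n) := by
    intro w
    have hmp := Pool.Agent.H241R3.FV.TInv.taskInv n hn0 (RR n w)
    have h1 : ∫ u : Sph n, F (u : E n) ∂((sig n).map (rot (RR n w))) =
        ∫ u : Sph n, F ((rot (RR n w) u : Sph n) : E n) ∂(sig n) :=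
      integral_map hmp.measurable.aemeasurable hG.aestronglyMeasurable
    rw [hmp.map_eq] at h1
    rw [h1]
    rfl
  rw [hleft] at hswap
  simp_rw [hright] at hswap
  rw [integral_const, smul_eq_mul, show P.real univ = 1 from probReal_univ, one_mul] at hswap
  exact hswap

end

end Pool.Agent.H169R3.FVAvg
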